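import Pool.Agent.Helper99.BK.Stmts

/-! # bk_mods, module HALL: the Mordell equation -/

set_option autoImplicit false

namespace Pool.Helper99.BK

open NumberField

/-- Vieta for the three roots of `t ^ 3 - 3 X t + 2 Y` -/
theorem hall_vieta (X Y : ℂ) (z : Fin 3 → ℂ) (hz : Function.Injective z)
    (h : ∀ i, z i ^ 3 - 3 * X * z i + 2 * Y = 0) :
    z 0 + z 1 + z 2 = 0 ∧ z 0 * z 1 + z 0 * z 2 + z 1 * z 2 = -3 * X ∧
      z 0 * z 1 * z 2 = -2 * Y := by
  have h01 : z 0 - z 1 ≠ 0 := sub_ne_zero.2 (fun e => absurd (hz e) (by decide))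
  have h02 : z 0 - z 2 ≠ 0 := sub_ne_zero.2 (fun e => absurd (hz e) (by decide))
  have h12 : z 1 - z 2 ≠ 0 := sub_ne_zero.2 (fun e => absurd (hz e) (by decide))
  have e01 : z 0 ^ 2 + z 0 * z 1 + z 1 ^ 2 = 3 * X := by
    apply mul_left_cancel₀ h01
    linear_combination h 0 - h 1
  have e02 : z 0 ^ 2 + z 0 * z 2 + z 2 ^ 2 = 3 * X := by
    apply mul_left_cancel₀ h02
    linear_combination h 0 - h 2
  have s : z 0 + z 1 + z 2 = 0 := by
    apply mul_left_cancel₀ h12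
    linear_combination e01 - e02
  have s2 : z 2 = -(z 0 + z 1) := by linear_combination s
  refine ⟨s, ?_, ?_⟩
  · rw [s2]
    linear_combination -e01
  · rw [s2]
    linear_combination h 0 - z 0 * e01

/-- the product of the `γ z_i + δ` -/
theorem hall_prod (X Y g dd : ℂ) (z : Fin 3 → ℂ) (hz : Function.Injective z)
    (h : ∀ i, z i ^ 3 - 3 * X * z i + 2 * Y = 0) :
    ∏ i, (g * z i + dd) = dd ^ 3 - 3 * X * dd * g ^ 2 - 2 * Y * g ^ 3 := by
  obtain ⟨h1, h2, h3⟩ := hall_vieta X Y z hz h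
  rw [Fin.prod_univ_three]
  linear_combination g ^ 3 * h3 + g ^ 2 * dd * h2 + g * dd ^ 2 * h1

/-- the discriminant of the transformed form -/
theorem hall_dsc (x y α β γ δ a b c e : ℤ) (hdet : α * δ - β * γ = 1)
    (ha : a = δ ^ 3 - 3 * x * δ * γ ^ 2 - 2 * y * γ ^ 3)
    (hb : b = -3 * δ ^ 2 * β + 3 * x * (2 * α * γ * δ + β * γ ^ 2) + 6 * y * γ ^ 2 * α)
    (hc : c = 3 * δ * β ^ 2 - 3 * x * (δ * α ^ 2 + 2 * α * β * γ) - 6 * y * γ * α ^ 2)
    (he : e = -β ^ 3 + 3 * x * β * α ^ 2 + 2 * y * α ^ 3) :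
    dsc a b c e = 108 * (x ^ 3 - y ^ 2) := by
  have h : dsc a b c e = (α * δ - β * γ) ^ 6 * (108 * (x ^ 3 - y ^ 2)) := by
    unfold dsc
    rw [ha, hb, hc, he]
    ring
  rw [h, hdet]
  ring

/-- the value of the transformed form -/
theorem hall_form {K : Type} [Field K] (x y α β γ δ a b c e : ℤ) (hdet : α * δ - β * γ = 1)
    (ha : a = δ ^ 3 - 3 * x * δ * γ ^ 2 - 2 * y * γ ^ 3)
    (hb : b = -3 * δ ^ 2 * β + 3 * x * (2 * α * γ * δ + β * γ ^ 2) + 6 * y * γ ^ 2 * α)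
    (hc : c = 3 * δ * β ^ 2 - 3 * x * (δ * α ^ 2 + 2 * α * β * γ) - 6 * y * γ * α ^ 2)
    (he : e = -β ^ 3 + 3 * x * β * α ^ 2 + 2 * y * α ^ 3) (t : K)
    (ht : t ^ 3 - 3 * (x : K) * t + 2 * (y : K) = 0) (hv : (γ : K) * t + δ ≠ 0) :
    (a : K) * (((α : K) * t + β) / ((γ : K) * t + δ)) ^ 3 +
      b * (((α : K) * t + β) / ((γ : K) * t + δ)) ^ 2 +
      c * (((α : K) * t + β) / ((γ : K) * t + δ)) + e = 0 := by
  have hdK : (α : K) * δ - β * γ = 1 := by exact_mod_cast congrArg (Int.cast : ℤ → K) hdet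
  have haK : (a : K) = δ ^ 3 - 3 * x * δ * γ ^ 2 - 2 * y * γ ^ 3 := by rw [ha]; push_cast; ring
  have hbK : (b : K) = -3 * δ ^ 2 * β + 3 * x * (2 * α * γ * δ + β * γ ^ 2) +
    6 * y * γ ^ 2 * α := by rw [hb]; push_cast; ring
  have hcK : (c : K) = 3 * δ * β ^ 2 - 3 * x * (δ * α ^ 2 + 2 * α * β * γ) -
    6 * y * γ * α ^ 2 := by rw [hc]; push_cast; ring
  have heK : (e : K) = -β ^ 3 + 3 * x * β * α ^ 2 + 2 * y * α ^ 3 := by rw [he]; push_cast; ring
  have key : (a : K) * ((α : K) * t + β) ^ 3 + b * ((α : K) * t + β) ^ 2 * ((γ : K) * t + δ) +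
      c * ((α : K) * t + β) * ((γ : K) * t + δ) ^ 2 + e * ((γ : K) * t + δ) ^ 3 = 0 := by
    have h1 : (a : K) * ((α : K) * t + β) ^ 3 + b * ((α : K) * t + β) ^ 2 * ((γ : K) * t + δ) +
      c * ((α : K) * t + β) * ((γ : K) * t + δ) ^ 2 + e * ((γ : K) * t + δ) ^ 3 =
        ((α : K) * δ - β * γ) ^ 3 * (t ^ 3 - 3 * (x : K) * t + 2 * (y : K)) := by
      rw [haK, hbK, hcK, heK]
      ring
    rw [h1, ht, mul_zero]
  have h2 : ∀ u v : K, v ≠ 0 → (a : K) * (u / v) ^ 3 + b * (u / v) ^ 2 + c * (u / v) + e =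
      ((a : K) * u ^ 3 + b * u ^ 2 * v + c * u * v ^ 2 + e * v ^ 3) / v ^ 3 := by
    intro u v hv
    field_simp
  rw [h2 _ _ hv, key, zero_div]

/-- `1 + log t ≤ 8 t ^ (1/8)` -/
theorem hall_log (t : ℝ) (ht : 1 ≤ t) : (1 + Real.log t) ^ 8 ≤ 8 ^ 8 * t := by
  have h0 : 0 ≤ Real.log t := Real.log_nonneg ht
  have h1 := Real.add_one_le_exp (Real.log t / 8)
  have h2 : 1 + Real.log t ≤ 8 * Real.exp (Real.log t / 8) := by linarith
  calc (1 + Real.log t) ^ 8 ≤ (8 * Real.exp (Real.log t / 8)) ^ 8 :=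
        pow_le_pow_left₀ (by linarith) h2 8
    _ = 8 ^ 8 * t := by
        rw [mul_pow, ← Real.exp_nat_mul]
        congr 1
        rw [show ((8 : ℕ) : ℝ) * (Real.log t / 8) = Real.log t by push_cast; ring]
        exact Real.exp_log (by linarith)

/-- the trivial range -/
theorem hall_small (C1 D X : ℝ) (hC : 1 ≤ C1) (hD : 1 ≤ D) (hX : 0 ≤ X) (h : X ≤ C1 * D) :
    Real.log X ≤ (Real.log C1 + 2) * Real.sqrt D * (1 + Real.log D) ^ 19 := by
  have hC0 : 0 ≤ Real.log C1 := Real.log_nonneg hC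
  have hD0 : 0 ≤ Real.log D := Real.log_nonneg hD
  have hs : 1 ≤ Real.sqrt D := Real.one_le_sqrt.2 hD
  have hp : 1 ≤ (1 + Real.log D) ^ 19 := one_le_pow₀ (by linarith)
  have hlD : Real.log D ≤ 2 * Real.sqrt D := by
    have h1 : Real.log (Real.sqrt D) = Real.log D / 2 := Real.log_sqrt (by linarith)
    have h2 := Real.log_le_sub_one_of_pos (show 0 < Real.sqrt D by linarith)
    linarith
  have hmain : Real.log X ≤ (Real.log C1 + 2) * Real.sqrt D := by
    rcases hX.eq_or_lt with h0 | h0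
    · rw [← h0, Real.log_zero]
      positivity
    · have h1 : Real.log X ≤ Real.log (C1 * D) := Real.log_le_log h0 h
      rw [Real.log_mul (by linarith) (by linarith)] at h1
      nlinarith
  calc Real.log X ≤ (Real.log C1 + 2) * Real.sqrt D := hmain
    _ = (Real.log C1 + 2) * Real.sqrt D * 1 := by ring
    _ ≤ _ := mul_le_mul_of_nonneg_left hp (by positivity)

/-- bounds for the logarithms of three positive numbers -/
theorem hall_logs (P : Fin 3 → ℝ) (hP : ∀ i, 0 < P i) (M : ℝ) (hM : 1 ≤ M) (hle : ∀ i, P i ≤ M)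
    (hprod : 1 ≤ ∏ i, P i) (i : Fin 3) : |Real.log (P i)| ≤ 2 * Real.log M := by
  have hl : ∀ i, Real.log (P i) ≤ Real.log M := fun i => Real.log_le_log (hP i) (hle i)
  have hM0 : 0 ≤ Real.log M := Real.log_nonneg hM
  have h1 : 0 ≤ Real.log (∏ i, P i) := Real.log_nonneg hprod
  rw [Real.log_prod (fun i _ => (hP i).ne'), Fin.sum_univ_three] at h1
  have h2 := hl 0
  have h3 := hl 1
  have h4 := hl 2
  rw [abs_le]
  fin_cases i
  · constructor
    · show -(2 * Real.log M) ≤ Real.log (P 0)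
      linarith
    · show Real.log (P 0) ≤ 2 * Real.log M
      linarith
  · constructor
    · show -(2 * Real.log M) ≤ Real.log (P 1)
      linarith
    · show Real.log (P 1) ≤ 2 * Real.log M
      linarith
  · constructor
    · show -(2 * Real.log M) ≤ Real.log (P 2)
      linarith
    · show Real.log (P 2) ≤ 2 * Real.log M
      linarith

theorem hall_quot (A B P0 P1 P2 : ℂ) (hB : B ≠ 0) (h0 : P0 ≠ 0) (h1 : P1 ≠ 0) (h2 : P2 ≠ 0) :
    A / B = A / (P0 * P1) / (B / (P0 * P2)) * (P1 / P2) := by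
  field_simp

/-- the closeness of `G` to `1` -/
theorem hall_G (z0 z1 z2 : ℂ) (CR sd x : ℝ) (hCR : 1 ≤ CR) (hx : 1 ≤ x)
    (hsd : sd ≤ Real.sqrt x) (h02 : Real.sqrt x ≤ ‖z0 - z2‖)
    (h12 : x * ‖z1 - z2‖ ≤ CR * sd) :
    ‖(z0 - z1) / (z0 - z2) - 1‖ ≤ CR / x := by
  have hs : 1 ≤ Real.sqrt x := Real.one_le_sqrt.2 hx
  have hne : z0 - z2 ≠ 0 := by
    intro h0
    rw [h0, norm_zero] at h02
    linarith
  have e : (z0 - z1) / (z0 - z2) - 1 = (z2 - z1) / (z0 - z2) := by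
    field_simp
    ring
  rw [e, norm_div, norm_sub_rev z2 z1, div_le_div_iff₀ (norm_pos_iff.2 hne) (by linarith)]
  calc ‖z1 - z2‖ * x = x * ‖z1 - z2‖ := by ring
    _ ≤ CR * sd := h12
    _ ≤ CR * Real.sqrt x := mul_le_mul_of_nonneg_left hsd (by linarith)
    _ ≤ CR * ‖z0 - z2‖ := mul_le_mul_of_nonneg_left h02 (by linarith)

/-- the core of the argument -/
theorem hall_core (hIDC : ST_IDC) (hDISC : ST_DISC) (hFLD : ST_FLD) (hEMB3 : ST_EMB3)
    (hKER : ST_KER) (hNT : ST_NT) (hRT : ST_RT) (hRED : ST_RED) :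
    ∃ CN CR CD : ℝ, 1 ≤ CN ∧ 1 ≤ CR ∧ 1 ≤ CD ∧ ∀ x y d : ℤ, d ≠ 0 → y ^ 2 = x ^ 3 + d → 0 < y →
      2 ^ 30 * CR * CD * |(d : ℝ)| ≤ x → (∀ n : ℤ, n ^ 3 - 3 * x * n + 2 * y ≠ 0) →
      Real.log x ≤ CN * (2 * Real.sqrt (108 * |(d : ℝ)|) *
        (1 + Real.log (2 * Real.sqrt (108 * |(d : ℝ)|))) ^ 8) *
        (Real.log ((CD + 8 ^ 8 * 432) * |(d : ℝ)|) +
          Real.log (3 + 2 * Real.log (2 * CD * CR * (x : ℝ) ^ 2))) ^ 11 + Real.log CR := by
  obtain ⟨CN, hCN, hN⟩ := hNT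
  obtain ⟨CR, hCR, hR⟩ := hRT
  obtain ⟨CD, hCD, hD⟩ := hRED
  refine ⟨CN, CR, CD, hCN, hCR, hCD, ?_⟩
  intro x y d hd hxy hy hx hroot
  have hd1 : 1 ≤ |(d : ℝ)| := by exact_mod_cast Int.one_le_abs hd
  have hCC : 1 ≤ CR * CD := one_le_mul_of_one_le_of_one_le hCR hCD
  have hCRd : CR ≤ CR * CD := le_mul_of_one_le_right (by linarith) hCD
  have hCDd : CD ≤ CR * CD := le_mul_of_one_le_left (by linarith) hCR
  have hxA : 2 ^ 30 * (CR * CD) ≤ (x : ℝ) := by
    refine le_trans ?_ hx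
    have : 2 ^ 30 * CR * CD * 1 ≤ 2 ^ 30 * CR * CD * |(d : ℝ)| :=
      mul_le_mul_of_nonneg_left hd1 (by positivity)
    linarith
  have hxR : CR * |(d : ℝ)| ≤ x := by
    refine le_trans ?_ hx
    exact mul_le_mul_of_nonneg_right (by nlinarith) (by linarith)
  have hxD : CD * |(d : ℝ)| ≤ x := by
    refine le_trans ?_ hx
    exact mul_le_mul_of_nonneg_right (by nlinarith) (by linarith)
  have hxd : |(d : ℝ)| ≤ x := by nlinarith
  have hx1 : 1 ≤ (x : ℝ) := by linarith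
  obtain ⟨K, iK, iN, β, hK, hβ, hβq, hβz⟩ := hFLD x y hroot
  obtain ⟨z, hzi, hz, hzb, h01, h02, h12, hreal⟩ := hR x y d hxy hd hy hxR
  obtain ⟨al, be, ga, de, a, b, c, e, hdet, ha, hb, hc, he, ha0, hal, hbl, hcl, hel, hgal,
    hdel⟩ := hD x y d hxy hd hy hxD hroot
  choose σ hσ using fun i => hβz (z i) (hz i)
  have hσi : Function.Injective σ := fun i j hij => hzi (by rw [← hσ i, ← hσ j, hij])
  have heq : ∀ τ τ' : K →+* ℂ, τ β = τ' β → τ = τ' := by
    intro τ τ' h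
    by_contra hne
    obtain ⟨q, hq⟩ := (hKER K hK τ τ' hne).1 β h
    exact hβq q hq
  have hβint : IsIntegral ℤ β := by
    refine ⟨Polynomial.X ^ 3 + (Polynomial.C (-3 * x) * Polynomial.X + Polynomial.C (2 * y)),
      ?_, ?_⟩
    · apply Polynomial.monic_X_pow_add
      refine lt_of_le_of_lt (Polynomial.degree_linear_le) ?_
      norm_num
    · simp only [Polynomial.eval₂_add, Polynomial.eval₂_mul, Polynomial.eval₂_pow,
        Polynomial.eval₂_X, Polynomial.eval₂_C]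
      simp only [map_mul, map_neg, eq_intCast, map_ofNat]
      linear_combination hβ
  have hπint : IsIntegral ℤ ((ga : K) * β + de) :=
    ((isIntegral_algebraMap (R := ℤ) (A := K) (x := ga)).mul hβint).add
      (isIntegral_algebraMap (R := ℤ) (A := K) (x := de))
  let π : 𝓞 K := ⟨(ga : K) * β + de, hπint⟩
  have hπK : (π : K) = ga * β + de := rfl
  have hπ0 : (ga : K) * β + de ≠ 0 := by
    intro h0
    by_cases hga : ga = 0
    · rw [hga] at h0 hdet
      simp only [Int.cast_zero, zero_mul, zero_add, Int.cast_eq_zero] at h0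
      rw [h0] at hdet
      simp at hdet
    · apply hβq (-(de : ℚ) / ga)
      have hgK : (ga : K) ≠ 0 := Int.cast_ne_zero.2 hga
      rw [map_div₀, map_neg, map_intCast, map_intCast, eq_div_iff hgK]
      linear_combination h0
  have hπne : π ≠ 0 := fun h0 => hπ0 (by
    have := congrArg (fun t : 𝓞 K => (t : K)) h0
    exact this)
  have hσπ : ∀ i, σ i (π : K) = ga * z i + de := fun i => by
    rw [hπK, map_add, map_mul, map_intCast, map_intCast, hσ]
  have hP0 : ∀ i, (ga : ℂ) * z i + de ≠ 0 := fun i => by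
    rw [← hσπ]
    exact (map_ne_zero _).2 hπ0
  have hdC : (al : ℂ) * de - be * ga = 1 := by exact_mod_cast congrArg (Int.cast : ℤ → ℂ) hdet
  have hσα : ∀ i, σ i (((al : K) * β + be) / ((ga : K) * β + de)) =
      (al * z i + be) / (ga * z i + de) := fun i => by
    rw [map_div₀, map_add, map_mul, map_intCast, map_intCast, map_add, map_mul, map_intCast,
      map_intCast, hσ]
  have hdiff : ∀ i j, σ i (((al : K) * β + be) / ((ga : K) * β + de)) -
      σ j (((al : K) * β + be) / ((ga : K) * β + de)) =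
      (z i - z j) / ((ga * z i + de) * (ga * z j + de)) := fun i j => by
    rw [hσα, hσα, div_sub_div _ _ (hP0 i) (hP0 j)]
    congr 1
    linear_combination (z i - z j) * hdC
  -- norm
  have hprod : ∏ i, ‖σ i (π : K)‖ = |(a : ℝ)| := by
    have h1 := hall_prod (x : ℂ) (y : ℂ) ga de z hzi hz
    have h2 : ((a : ℤ) : ℂ) = de ^ 3 - 3 * x * de * ga ^ 2 - 2 * y * ga ^ 3 := by
      rw [ha]
      push_cast
      ring
    rw [← h2] at h1
    rw [← norm_prod]
    simp only [hσπ]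
    rw [h1]
    rw [Complex.norm_intCast]
  have hnorm : |(Algebra.norm ℤ π : ℝ)| = |(a : ℝ)| := by
    rw [← hprod]
    exact ((hEMB3 K hK σ hσi).2.1 π).symm
  have ha1 : 1 ≤ |(a : ℝ)| := by exact_mod_cast Int.one_le_abs ha0
  -- sizes
  have hM1 : 1 ≤ 2 * CD * CR * (x : ℝ) ^ 2 := by nlinarith [one_le_pow₀ (n := 2) hx1]
  have hPle : ∀ i, ‖σ i (π : K)‖ ≤ 2 * CD * CR * (x : ℝ) ^ 2 := by
    intro i
    rw [hσπ]
    have hx2 : (x : ℝ) ≤ (x : ℝ) ^ 2 := by nlinarith
    calc ‖(ga : ℂ) * z i + de‖ ≤ ‖(ga : ℂ) * z i‖ + ‖(de : ℂ)‖ := norm_add_le _ _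
      _ = |(ga : ℝ)| * ‖z i‖ + |(de : ℝ)| := by
          rw [norm_mul, Complex.norm_intCast, Complex.norm_intCast]
      _ ≤ (CD * x) * (CR * x) + CD * x :=
          add_le_add (mul_le_mul hgal (hzb i) (norm_nonneg _) (by positivity)) hdel
      _ ≤ CD * CR * (x : ℝ) ^ 2 + CD * CR * (x : ℝ) ^ 2 := by
          apply add_le_add
          · apply le_of_eq
            ring
          · calc CD * (x : ℝ) ≤ CD * (x : ℝ) ^ 2 := mul_le_mul_of_nonneg_left hx2 (by linarith)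
              _ ≤ CD * CR * (x : ℝ) ^ 2 :=
                mul_le_mul_of_nonneg_right (le_mul_of_one_le_right (by linarith) hCR)
                  (by positivity)
      _ = _ := by ring
  have hlogs : ∀ i, |Real.log ‖σ i (π : K)‖| ≤ 2 * Real.log (2 * CD * CR * (x : ℝ) ^ 2) := by
    intro i
    refine hall_logs (fun i => ‖σ i (π : K)‖) (fun i => norm_pos_iff.2 ?_) _ hM1 hPle ?_ i
    · exact (map_ne_zero _).2 hπ0
    · show 1 ≤ ∏ i, ‖σ i (π : K)‖
      rw [hprod]
      exact ha1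
  have hlM : 0 ≤ Real.log (2 * CD * CR * (x : ℝ) ^ 2) := Real.log_nonneg hM1
  -- discriminant
  have hdisc : |(NumberField.discr K : ℝ)| ≤ 108 * |(d : ℝ)| := by
    have h1 := hDISC K hK β x y hβ hβq
    have h2 : x ^ 3 - y ^ 2 = -d := by rw [hxy]; ring
    rw [h2, Int.cast_neg, abs_neg] at h1
    exact h1
  have hdisc1 : 1 ≤ |(NumberField.discr K : ℝ)| := by
    exact_mod_cast Int.one_le_abs (NumberField.discr_ne_zero K)
  set t : ℝ := 2 * Real.sqrt |(NumberField.discr K : ℝ)| with ht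
  set t0 : ℝ := 2 * Real.sqrt (108 * |(d : ℝ)|) with ht0
  have ht1 : 1 ≤ t := by
    have := Real.one_le_sqrt.2 hdisc1
    linarith
  have htt : t ≤ t0 := by
    have := Real.sqrt_le_sqrt hdisc
    linarith
  have hlt : Real.log t ≤ Real.log t0 := Real.log_le_log (by linarith) htt
  have hlt0 : 0 ≤ Real.log t := Real.log_nonneg ht1
  have hcard : ((ID K t).ncard : ℝ) ≤ t0 * (1 + Real.log t0) ^ 8 :=
    (hIDC K hK t ht1).trans (mul_le_mul htt (pow_le_pow_left₀ (by linarith) (by linarith) 8)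
      (by positivity) (by linarith))
  have hν1 : 1 ≤ t0 * (1 + Real.log t0) ^ 8 :=
    one_le_mul_of_one_le_of_one_le (by linarith) (one_le_pow₀ (by linarith))
  set H : ℝ := (CD + 8 ^ 8 * 432) * |(d : ℝ)| with hHdef
  have hH1 : 8 ^ 8 * 432 ≤ H := by
    rw [hHdef]
    nlinarith
  have hHD : CD * |(d : ℝ)| ≤ H := by
    rw [hHdef]
    exact mul_le_mul_of_nonneg_right (by norm_num) (by linarith)
  have hνH : t0 * (1 + Real.log t0) ^ 8 ≤ H := by
    have h1 := hall_log t0 (by linarith)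
    have h2 : t0 * t0 = 432 * |(d : ℝ)| := by
      rw [ht0]
      have := Real.mul_self_sqrt (show 0 ≤ 108 * |(d : ℝ)| by positivity)
      linear_combination 4 * this
    calc t0 * (1 + Real.log t0) ^ 8 ≤ t0 * (8 ^ 8 * t0) :=
          mul_le_mul_of_nonneg_left h1 (by linarith)
      _ = 8 ^ 8 * (t0 * t0) := by ring
      _ = 8 ^ 8 * 432 * |(d : ℝ)| := by rw [h2]; ring
      _ ≤ H := by
          rw [hHdef]
          exact mul_le_mul_of_nonneg_right (by linarith) (by linarith)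
  have hH4 : H ≤ H ^ 4 := by
    have h1 : (1 : ℝ) ≤ H := by linarith
    calc H = H ^ 1 := by ring
      _ ≤ H ^ 4 := pow_le_pow_right₀ h1 (by norm_num)
  -- the quantity G
  have hπ1 := hP0 1
  have hπ2 := hP0 2
  have hπ00 := hP0 0
  have hz02 : z 0 - z 2 ≠ 0 := sub_ne_zero.2 (fun e => absurd (hzi e) (by decide))
  have hG : (z 0 - z 1) / (z 0 - z 2) =
      (σ 0 (((al : K) * β + be) / ((ga : K) * β + de)) -
        σ 1 (((al : K) * β + be) / ((ga : K) * β + de))) /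
      (σ 0 (((al : K) * β + be) / ((ga : K) * β + de)) -
        σ 2 (((al : K) * β + be) / ((ga : K) * β + de))) *
      (σ 1 (π : K) / σ 2 (π : K)) := by
    rw [hdiff, hdiff, hσπ, hσπ]
    exact hall_quot _ _ _ _ _ hz02 hπ00 hπ1 hπ2
  have hsd : Real.sqrt |(d : ℝ)| ≤ Real.sqrt (x : ℝ) := Real.sqrt_le_sqrt hxd
  have hG1 := hall_G (z 0) (z 1) (z 2) CR (Real.sqrt |(d : ℝ)|) (x : ℝ) hCR hx1 hsd h02 h12
  have hGne : (z 0 - z 1) / (z 0 - z 2) ≠ 1 := by
    intro h0
    rw [div_eq_one_iff_eq hz02] at h0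
    have h3 : z 1 = z 2 := by linear_combination -h0
    exact absurd (hzi h3) (by decide)
  have hG2 : ‖(z 0 - z 1) / (z 0 - z 2) - 1‖ ≤ 1 / 2 ^ 30 := by
    refine hG1.trans ?_
    rw [div_le_div_iff₀ (by linarith) (by norm_num)]
    nlinarith
  have hmain := hN K hK σ hσi (((al : K) * β + be) / ((ga : K) * β + de)) a b c e ha0
    (fun i j hij h0 => by
      have h3 := hdiff i j
      rw [h0, sub_self] at h3
      have h4 : z i - z j ≠ 0 := sub_ne_zero.2 (fun e => hij (hzi e))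
      exact (div_ne_zero h4 (mul_ne_zero (hP0 i) (hP0 j))) h3.symm)
    (hall_form x y al be ga de a b c e hdet ha hb hc he β hβ hπ0)
    (by
      rw [hall_dsc x y al be ga de a b c e hdet ha hb hc he, hxy]
      intro h0
      apply hd
      linarith)
    π hπne H (3 + 2 * Real.log (2 * CD * CR * (x : ℝ) ^ 2)) (t0 * (1 + Real.log t0) ^ 8)
    (by linarith) (hal.trans hHD) (hbl.trans hHD) (hcl.trans hHD) (hel.trans hHD)
    (by rw [hnorm]; exact hal.trans hHD)
    (hdisc.trans (by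
      rw [hHdef]
      exact mul_le_mul_of_nonneg_right (by linarith) (by linarith)))
    (by linarith) (fun i => (hlogs i).trans (by linarith)) hν1 (hνH.trans hH4) hcard
    (by
      rcases hreal with h | ⟨h, h'⟩
      · left
        intro i w
        have h5 : (starRingEnd ℂ).comp (σ i) = σ i := by
          apply heq
          rw [RingHom.comp_apply, hσ, Complex.conj_eq_iff_im]
          exact h i
        have h6 := RingHom.congr_fun h5 w
        rw [RingHom.comp_apply, Complex.conj_eq_iff_im] at h6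
        exact h6
      · right
        constructor
        · intro w
          have h5 : σ 2 = (starRingEnd ℂ).comp (σ 1) := by
            apply heq
            rw [RingHom.comp_apply, hσ, hσ]
            exact h
          exact RingHom.congr_fun h5 w
        · intro w
          have h5 : (starRingEnd ℂ).comp (σ 0) = σ 0 := by
            apply heq
            rw [RingHom.comp_apply, hσ, Complex.conj_eq_iff_im]
            exact h'
          have h6 := RingHom.congr_fun h5 w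
          rw [RingHom.comp_apply, Complex.conj_eq_iff_im] at h6
          exact h6)
    ((z 0 - z 1) / (z 0 - z 2)) hG hGne hG2
  have hGpos : 0 < ‖(z 0 - z 1) / (z 0 - z 2) - 1‖ := norm_pos_iff.2 (sub_ne_zero.2 hGne)
  have hlogG := Real.log_le_log hGpos hG1
  rw [Real.log_div (by linarith) (by linarith)] at hlogG
  linarith

theorem hall_arith (t CN s r l Y C : ℝ) (h : t ≤ CN * (2 * (s * r) * Y ^ 8) * Y ^ 11 + l)
    (hP : 1 ≤ r * Y ^ 19) (hl : 0 ≤ l) (hC : CN * (2 * s) + l ≤ C) : t ≤ C * r * Y ^ 19 := by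
  have e : CN * (2 * (s * r) * Y ^ 8) * Y ^ 11 = CN * (2 * s) * (r * Y ^ 19) := by ring
  rw [e] at h
  have h1 : l * 1 ≤ l * (r * Y ^ 19) := mul_le_mul_of_nonneg_left hP hl
  have h2 : (CN * (2 * s) + l) * (r * Y ^ 19) ≤ C * (r * Y ^ 19) :=
    mul_le_mul_of_nonneg_right hC (by linarith)
  rw [mul_assoc]
  generalize r * Y ^ 19 = w at *
  linarith

/-- collecting the logarithms -/
theorem hall_collect (CN CR CD : ℝ) (hCN : 1 ≤ CN) (hCR : 1 ≤ CR) (hCD : 1 ≤ CD) :
    ∃ C : ℝ, 1 ≤ C ∧ ∀ D t : ℝ, 1 ≤ D → 1 ≤ t →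
      t ≤ CN * (2 * Real.sqrt (108 * D) * (1 + Real.log (2 * Real.sqrt (108 * D))) ^ 8) *
        (Real.log ((CD + 8 ^ 8 * 432) * D) +
          Real.log (3 + 2 * (Real.log (2 * CD * CR) + 2 * t))) ^ 11 + Real.log CR →
      t ≤ C * Real.sqrt D * (Real.log D + Real.log t + C) ^ 19 := by
  have hCC : 1 ≤ CD * CR := one_le_mul_of_one_le_of_one_le hCD hCR
  have hA0 : 0 ≤ Real.log (2 * CD * CR) := Real.log_nonneg (by linarith)
  have hC2 : 0 ≤ Real.log (CD + 8 ^ 8 * 432) := Real.log_nonneg (by linarith)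
  have hC3 : 0 ≤ Real.log (7 + 2 * Real.log (2 * CD * CR)) := Real.log_nonneg (by linarith)
  have hC4 : 0 ≤ Real.log CR := Real.log_nonneg hCR
  have hl2 : 0 ≤ Real.log 2 := Real.log_nonneg (by norm_num)
  have hl108 : 0 ≤ Real.log 108 := Real.log_nonneg (by norm_num)
  have hs108 : 0 ≤ Real.sqrt 108 := Real.sqrt_nonneg _
  have hCNs : 0 ≤ CN * (2 * Real.sqrt 108) := by positivity
  set C : ℝ := 1 + Real.log 2 + Real.log 108 + Real.log (CD + 8 ^ 8 * 432) +
    Real.log (7 + 2 * Real.log (2 * CD * CR)) + CN * (2 * Real.sqrt 108) + Real.log CR with hC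
  have hC1 : 1 ≤ C := by linarith
  have hCa : 1 + Real.log 2 + Real.log 108 ≤ C := by linarith
  have hCb : Real.log (CD + 8 ^ 8 * 432) + Real.log (7 + 2 * Real.log (2 * CD * CR)) ≤ C := by
    linarith
  have hCle : CN * (2 * Real.sqrt 108) + Real.log CR ≤ C := by linarith
  clear_value C
  refine ⟨C, hC1, ?_⟩
  intro D t hD ht h
  have hD0 : 0 ≤ Real.log D := Real.log_nonneg hD
  have ht0 : 0 ≤ Real.log t := Real.log_nonneg ht
  have hsD : 1 ≤ Real.sqrt D := Real.one_le_sqrt.2 hD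
  set Y : ℝ := Real.log D + Real.log t + C with hY
  have hY1 : 1 ≤ Y := by linarith
  have hY2 : Real.log D + Real.log t + C ≤ Y := le_rfl
  clear_value Y
  have hs : Real.sqrt (108 * D) = Real.sqrt 108 * Real.sqrt D := Real.sqrt_mul (by norm_num) D
  have h1 : Real.log (2 * Real.sqrt (108 * D)) =
      Real.log 2 + (Real.log 108 + Real.log D) / 2 := by
    rw [Real.log_mul (by norm_num) (by positivity), Real.log_sqrt (by positivity),
      Real.log_mul (by norm_num) (by positivity)]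
  have h1' : 1 + Real.log (2 * Real.sqrt (108 * D)) ≤ Y := by
    rw [h1]
    linarith
  have h1'' : 0 ≤ 1 + Real.log (2 * Real.sqrt (108 * D)) := by
    rw [h1]
    linarith
  have h2 : Real.log ((CD + 8 ^ 8 * 432) * D) = Real.log (CD + 8 ^ 8 * 432) + Real.log D :=
    Real.log_mul (by linarith) (by linarith)
  have h3 : Real.log (3 + 2 * (Real.log (2 * CD * CR) + 2 * t)) ≤
      Real.log (7 + 2 * Real.log (2 * CD * CR)) + Real.log t := by
    rw [← Real.log_mul (by linarith) (by linarith)]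
    apply Real.log_le_log (by linarith)
    have h7 : 0 ≤ (t - 1) * (3 + 2 * Real.log (2 * CD * CR)) :=
      mul_nonneg (by linarith) (by linarith)
    linarith
  have h3' : 0 ≤ Real.log (3 + 2 * (Real.log (2 * CD * CR) + 2 * t)) :=
    Real.log_nonneg (by linarith)
  have h4 : Real.log ((CD + 8 ^ 8 * 432) * D) +
          Real.log (3 + 2 * (Real.log (2 * CD * CR) + 2 * t)) ≤ Y := by
    rw [h2]
    linarith
  have h4' : 0 ≤ Real.log ((CD + 8 ^ 8 * 432) * D) +
          Real.log (3 + 2 * (Real.log (2 * CD * CR) + 2 * t)) := by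
    rw [h2]
    linarith
  have h5 : CN * (2 * Real.sqrt (108 * D) * (1 + Real.log (2 * Real.sqrt (108 * D))) ^ 8) *
        (Real.log ((CD + 8 ^ 8 * 432) * D) +
          Real.log (3 + 2 * (Real.log (2 * CD * CR) + 2 * t))) ^ 11 ≤
      CN * (2 * (Real.sqrt 108 * Real.sqrt D) * Y ^ 8) * Y ^ 11 := by
    rw [← hs]
    apply mul_le_mul _ (pow_le_pow_left₀ h4' h4 11) (pow_nonneg h4' 11) (by positivity)
    apply mul_le_mul_of_nonneg_left _ (by linarith)
    exact mul_le_mul_of_nonneg_left (pow_le_pow_left₀ h1'' h1' 8) (by positivity)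
  have hP : 1 ≤ Real.sqrt D * Y ^ 19 :=
    one_le_mul_of_one_le_of_one_le hsD (one_le_pow₀ hY1)
  have h6 := h.trans (add_le_add h5 le_rfl)
  exact hall_arith t CN (Real.sqrt 108) (Real.sqrt D) (Real.log CR) Y C h6 hP hC4 hCle

theorem st_HALL (hNT : ST_NT) (hIDC : ST_IDC) (hDISC : ST_DISC) (hFLD : ST_FLD) (hRT : ST_RT)
    (hRED : ST_RED) (hRDC : ST_RDC) (hCAL : ST_CAL) (hEMB3 : ST_EMB3) (hKER : ST_KER) :
    ST_HALL := by
  obtain ⟨CN, CR, CD, hCN, hCR, hCD, hcore⟩ :=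
    hall_core hIDC hDISC hFLD hEMB3 hKER hNT hRT hRED
  obtain ⟨C, hC, hcol⟩ := hall_collect CN CR CD hCN hCR hCD
  obtain ⟨C', hC', hcal⟩ := hCAL C hC
  have hCC : 1 ≤ CR * CD := one_le_mul_of_one_le_of_one_le hCR hCD
  set C1 : ℝ := 2 ^ 30 * CR * CD + 100 with hC1def
  have hC1 : 101 ≤ C1 := by
    rw [hC1def]
    nlinarith
  have hlC1 : 0 ≤ Real.log C1 := Real.log_nonneg (by linarith)
  refine ⟨Real.log C1 + 2 + C', ?_⟩
  intro d x y hd hxy
  have hd1 : 1 ≤ |(d : ℝ)| := by exact_mod_cast Int.one_le_abs hd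
  have hp : 0 ≤ Real.sqrt |(d : ℝ)| * (1 + Real.log |(d : ℝ)|) ^ 19 := by
    have := Real.log_nonneg hd1
    positivity
  by_cases hsmall : |(x : ℝ)| ≤ C1 * |(d : ℝ)|
  · have h1 := hall_small C1 |(d : ℝ)| |(x : ℝ)| (by linarith) hd1 (abs_nonneg _) hsmall
    refine h1.trans ?_
    have : 0 ≤ C' * (Real.sqrt |(d : ℝ)| * (1 + Real.log |(d : ℝ)|) ^ 19) :=
      mul_nonneg (by linarith) hp
    linarith
  push Not at hsmall
  have hbig : |(d : ℝ)| < |(x : ℝ)| := by nlinarith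
  have hbigZ : |d| < |x| := by exact_mod_cast hbig
  have hcube : |x| ≤ |x| ^ 3 := by
    have h0 : 0 < |x| := lt_of_le_of_lt (abs_nonneg d) hbigZ
    nlinarith [pow_pos h0 2]
  have hxpos : 0 < x := by
    by_contra hneg
    push Not at hneg
    have h1 : |x| = -x := abs_of_nonpos hneg
    have h2 : |x| ^ 3 = -x ^ 3 := by rw [h1]; ring
    have h3 : d = y ^ 2 + |x| ^ 3 := by rw [h2]; linarith
    have h4 : |x| ^ 3 ≤ |d| := by
      have h5 := le_abs_self d
      have h6 := sq_nonneg y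
      linarith
    linarith
  have hy0 : y ≠ 0 := by
    rintro rfl
    have h1 : x ^ 3 = -d := by linarith
    have h2 : |x| ^ 3 = |d| := by rw [← abs_pow, h1, abs_neg]
    linarith
  have hy' : 0 < |y| := abs_pos.2 hy0
  have hxy' : |y| ^ 2 = x ^ 3 + d := by rw [sq_abs]; exact hxy
  have hxR : |(x : ℝ)| = x := abs_of_pos (by exact_mod_cast hxpos)
  by_cases hroot : ∃ n : ℤ, n ^ 3 - 3 * x * n + 2 * |y| = 0
  · obtain ⟨n, hn⟩ := hroot
    have h1 := hRDC x |y| d n hxy' hd hn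
    exfalso
    have h2 : 100 * |(d : ℝ)| ≤ C1 * |(d : ℝ)| :=
      mul_le_mul_of_nonneg_right (by linarith) (by linarith)
    linarith
  push Not at hroot
  have hx1 : 2 ^ 30 * CR * CD * |(d : ℝ)| ≤ x := by
    rw [← hxR]
    refine le_trans ?_ hsmall.le
    exact mul_le_mul_of_nonneg_right (by rw [hC1def]; linarith) (by linarith)
  have hx3 : (3 : ℝ) ≤ x := by
    rw [← hxR]
    nlinarith
  have h1 := hcore x |y| d hd hxy' hy' hx1 hroot
  have ht : 1 ≤ Real.log (x : ℝ) := by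
    rw [Real.le_log_iff_exp_le (by linarith)]
    have := Real.exp_one_lt_d9
    linarith
  have h2 : Real.log (2 * CD * CR * (x : ℝ) ^ 2) = Real.log (2 * CD * CR) + 2 * Real.log x := by
    rw [Real.log_mul (by positivity) (by positivity), Real.log_pow]
    push_cast
    ring
  rw [h2] at h1
  have h3 := hcal |(d : ℝ)| (Real.log x) hd1 ht (hcol |(d : ℝ)| (Real.log x) hd1 ht h1)
  rw [hxR]
  have : 0 ≤ (Real.log C1 + 2) * (Real.sqrt |(d : ℝ)| * (1 + Real.log |(d : ℝ)|) ^ 19) :=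
    mul_nonneg (by linarith) hp
  linarith

end Pool.Helper99.BK
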